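import Pool.Agent.helper54.GR3.Spec

set_option autoImplicit false

open Complex Metric Set Filter Topology MeasureTheory
open MPS (om)
open PPS (pre TT fd)
open XPS (Df er dens tau)
open Pool.Agent.helper16.Multibrot

noncomputable section

namespace GR

theorem NF3_id (y P : ℂ) (hP : P ≠ 0) (hy : y - P ≠ 0) :
    y ^ 2 / (P ^ 2 * (y - P)) = 1 / (y - P) + 1 / P + y / P ^ 2 := by
  field_simp
  ring

theorem NF3_norm (r Y P : ℂ) : ‖r * (Y ^ 2 / (P ^ 2 * (Y - P)))‖ =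
    ‖r‖ * (‖Y‖ ^ 2 / (‖P‖ ^ 2 * ‖Y - P‖)) := by
  rw [norm_mul, norm_div, norm_pow, norm_mul, norm_pow]

theorem NF3_sum {ι : Type} (t : Finset ι) (ρ P : ι → ℂ) (Y : ℂ) (h0 : ∀ l ∈ t, P l ≠ 0)
    (h1 : ∀ l ∈ t, Y - P l ≠ 0) :
    ∑ l ∈ t, ρ l * (Y ^ 2 / (P l ^ 2 * (Y - P l))) =
      ∑ l ∈ t, ρ l / (Y - P l) + ∑ l ∈ t, ρ l / P l + Y * ∑ l ∈ t, ρ l / P l ^ 2 := by
  rw [Finset.mul_sum, ← Finset.sum_add_distrib, ← Finset.sum_add_distrib]
  apply Finset.sum_congr rfl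
  intro l hl
  rw [NF3_id Y (P l) (h0 l hl) (h1 l hl)]
  ring

theorem NF3 (hN : NBR_stmt) : NF3_stmt := by
  intro ι _ s z ρ σ hcard hσ hsep hρ
  obtain ⟨i, hi, k, hk, hik, hσik, hnear, hS1, hS2⟩ := hN ι s z σ hcard hσ hsep
  have hσi := hσ i hi
  have hσk := hσ k hk
  set d : ℝ := ‖z k - z i‖ with hd
  have hdik : σ i + σ k ≤ d := by
    have := hsep k hk i hi (Ne.symm hik)
    linarith
  have hd0 : 0 < d := by linarith
  have hPd : ∀ l ∈ s, l ≠ i → d ≤ ‖z l - z i‖ := hnear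
  have hP0 : ∀ l ∈ s, l ≠ i → z l - z i ≠ 0 := by
    intro l hl hli h
    have := hPd l hl hli
    rw [h, norm_zero] at this
    linarith
  have hρ' : ∀ l ∈ s, ‖ρ l‖ ≤ 2 / σ l := fun l hl => by
    rw [le_div_iff₀ (hσ l hl)]; exact hρ l hl
  have hσiC : (σ i : ℂ) ≠ 0 := by exact_mod_cast hσi.ne'
  have hσkC : (σ k : ℂ) ≠ 0 := by exact_mod_cast hσk.ne'
  have hni : ‖(σ i : ℂ)‖ = σ i := by rw [Complex.norm_real, Real.norm_of_nonneg hσi.le]
  have hnk : ‖(σ k : ℂ)‖ = σ k := by rw [Complex.norm_real, Real.norm_of_nonneg hσk.le]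
  refine ⟨i, hi, k, hk, hik, hσik,
    -((σ i : ℂ) ^ 2 * ∑ l ∈ s.erase i, ρ l / (z l - z i)),
    -((σ i : ℂ) ^ 3 * ∑ l ∈ s.erase i, ρ l / (z l - z i) ^ 2), ?_, ?_⟩
  · intro x hx0 hx
    have hxne : x ≠ 0 := by rintro rfl; simp at hx0
    set Y : ℂ := (σ i : ℂ) * x with hY
    have hYn : ‖Y‖ = σ i * ‖x‖ := by rw [hY, norm_mul, hni]
    have hYle : ‖Y‖ ≤ d / 4 := by
      rw [hYn]; nlinarith
    have hlow : ∀ l ∈ s, l ≠ i → ‖z l - z i‖ / 2 ≤ ‖Y - (z l - z i)‖ := by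
      intro l hl hli
      have h1 := hPd l hl hli
      have h2 : ‖z l - z i‖ - ‖Y‖ ≤ ‖Y - (z l - z i)‖ := by
        rw [norm_sub_rev Y]; exact norm_sub_norm_le _ _
      linarith
    have hne : ∀ l ∈ s, l ≠ i → Y - (z l - z i) ≠ 0 := by
      intro l hl hli h
      have h1 := hlow l hl hli
      have h2 := hPd l hl hli
      rw [h, norm_zero] at h1
      linarith
    have e0 : ∑ j ∈ s, ρ j / (z i + Y - z j) =
        ρ i / Y + ∑ l ∈ s.erase i, ρ l / (Y - (z l - z i)) := by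
      rw [← Finset.add_sum_erase s _ hi]
      congr 1
      · congr 1; ring
      · apply Finset.sum_congr rfl
        intro l hl
        congr 1; ring
    have e1 := NF3_sum (s.erase i) ρ (fun l => z l - z i) Y
      (fun l hl => hP0 l (Finset.mem_of_mem_erase hl) (Finset.ne_of_mem_erase hl))
      (fun l hl => hne l (Finset.mem_of_mem_erase hl) (Finset.ne_of_mem_erase hl))
    have e2 : (σ i : ℂ) ^ 2 * ∑ j ∈ s, ρ j / (z i + Y - z j) - (σ i : ℂ) * ρ i / x -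
        -((σ i : ℂ) ^ 2 * ∑ l ∈ s.erase i, ρ l / (z l - z i)) -
        -((σ i : ℂ) ^ 3 * ∑ l ∈ s.erase i, ρ l / (z l - z i) ^ 2) * x =
        (σ i : ℂ) ^ 2 * ∑ l ∈ s.erase i, ρ l * (Y ^ 2 / ((z l - z i) ^ 2 * (Y - (z l - z i)))) := by
      rw [e1, e0]
      have h3 : (σ i : ℂ) ^ 2 * (ρ i / Y) = (σ i : ℂ) * ρ i / x := by
        rw [hY]; field_simp
      rw [mul_add, h3, hY]
      ring
    rw [e2, norm_mul, norm_pow, hni]
    have hb : ‖∑ l ∈ s.erase i, ρ l * (Y ^ 2 / ((z l - z i) ^ 2 * (Y - (z l - z i))))‖ ≤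
        4 * ‖Y‖ ^ 2 * (72 / (σ i * d ^ 3)) := by
      refine (norm_sum_le _ _).trans ?_
      refine le_trans ?_ (mul_le_mul_of_nonneg_left hS1 (by positivity))
      rw [Finset.mul_sum]
      apply Finset.sum_le_sum
      intro l hl
      have hls := Finset.mem_of_mem_erase hl
      have hli := Finset.ne_of_mem_erase hl
      have hσl := hσ l hls
      have hPl : 0 < ‖z l - z i‖ := lt_of_lt_of_le hd0 (hPd l hls hli)
      have h1 := hlow l hls hli
      rw [NF3_norm]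
      calc ‖ρ l‖ * (‖Y‖ ^ 2 / (‖z l - z i‖ ^ 2 * ‖Y - (z l - z i)‖))
          ≤ (2 / σ l) * (‖Y‖ ^ 2 / (‖z l - z i‖ ^ 2 * (‖z l - z i‖ / 2))) := by
            apply mul_le_mul (hρ' l hls) _ (by positivity) (by positivity)
            apply div_le_div_of_nonneg_left (by positivity) (by positivity)
            exact mul_le_mul_of_nonneg_left h1 (by positivity)
        _ = 4 * ‖Y‖ ^ 2 * (1 / (σ l * ‖z l - z i‖ ^ 3)) := by
            field_simp; ring
    calc σ i ^ 2 * ‖∑ l ∈ s.erase i, ρ l * (Y ^ 2 / ((z l - z i) ^ 2 * (Y - (z l - z i))))‖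
        ≤ σ i ^ 2 * (4 * ‖Y‖ ^ 2 * (72 / (σ i * d ^ 3))) :=
          mul_le_mul_of_nonneg_left hb (by positivity)
      _ = 288 * (σ i ^ 3 / d ^ 3) * ‖x‖ ^ 2 := by
          rw [hYn]; field_simp; ring
      _ ≤ 288 * 1 * ‖x‖ ^ 2 := by
          have : σ i ^ 3 / d ^ 3 ≤ 1 := by
            rw [div_le_one (by positivity)]
            exact pow_le_pow_left₀ hσi.le (by linarith) 3
          gcongr
      _ ≤ 2000 * ‖x‖ ^ 2 := by nlinarith [sq_nonneg ‖x‖]
  · intro y hy0 hy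
    have hyne : y ≠ 0 := by rintro rfl; simp at hy0
    set Y : ℂ := (z k - z i) + (σ k : ℂ) * y with hY
    have hky : ‖(σ k : ℂ) * y‖ ≤ σ k / 2 := by
      rw [norm_mul, hnk]; nlinarith
    have hYhi : ‖Y‖ ≤ 3 / 2 * d := by
      have := norm_add_le (z k - z i) ((σ k : ℂ) * y)
      rw [← hY, ← hd] at this
      linarith
    have hYlo : d / 2 ≤ ‖Y‖ := by
      have h1 : ‖z k - z i‖ ≤ ‖Y‖ + ‖(σ k : ℂ) * y‖ := by
        have h2 : z k - z i = Y - (σ k : ℂ) * y := by rw [hY]; ring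
        rw [h2]; exact norm_sub_le _ _
      rw [← hd] at h1
      linarith
    have hY0 : Y ≠ 0 := by
      intro h; rw [h, norm_zero] at hYlo; linarith
    have hkl : ∀ l ∈ s, l ≠ k → ‖z l - z k‖ / 2 ≤ ‖Y - (z l - z i)‖ := by
      intro l hl hlk
      have h1 := hsep l hl k hk hlk
      have h2 : ‖z l - z k‖ ≤ ‖Y - (z l - z i)‖ + ‖(σ k : ℂ) * y‖ := by
        have h3 : z l - z k = (σ k : ℂ) * y - (Y - (z l - z i)) := by rw [hY]; ring
        rw [h3, add_comm]; exact norm_sub_le _ _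
      have := hσ l hl
      linarith
    have hkl0 : ∀ l ∈ s, l ≠ k → 0 < ‖z l - z k‖ := by
      intro l hl hlk
      have h1 := hsep l hl k hk hlk
      have := hσ l hl
      linarith
    have hne : ∀ l ∈ s, l ≠ k → Y - (z l - z i) ≠ 0 := by
      intro l hl hlk h
      have h1 := hkl l hl hlk
      have h2 := hkl0 l hl hlk
      rw [h, norm_zero] at h1
      linarith
    have hki : k ∈ s.erase i := Finset.mem_erase.2 ⟨Ne.symm hik, hk⟩
    have hmem : ∀ l ∈ (s.erase i).erase k, l ∈ s ∧ l ≠ i ∧ l ≠ k := by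
      intro l hl
      exact ⟨Finset.mem_of_mem_erase (Finset.mem_of_mem_erase hl),
        Finset.ne_of_mem_erase (Finset.mem_of_mem_erase hl), Finset.ne_of_mem_erase hl⟩
    have e0 : ∑ j ∈ s, ρ j / (z k + (σ k : ℂ) * y - z j) =
        ρ i / Y + (ρ k / ((σ k : ℂ) * y) +
          ∑ l ∈ (s.erase i).erase k, ρ l / (Y - (z l - z i))) := by
      rw [← Finset.add_sum_erase s _ hi, ← Finset.add_sum_erase (s.erase i) _ hki]
      congr 1
      · congr 1; rw [hY]; ring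
      · congr 1
        · congr 1; ring
        · apply Finset.sum_congr rfl
          intro l hl
          congr 1; rw [hY]; ring
    have e3 : ∑ l ∈ s.erase i, ρ l / (z l - z i) =
        ρ k / (z k - z i) + ∑ l ∈ (s.erase i).erase k, ρ l / (z l - z i) := by
      rw [← Finset.add_sum_erase (s.erase i) _ hki]
    have e4 : ∑ l ∈ s.erase i, ρ l / (z l - z i) ^ 2 =
        ρ k / (z k - z i) ^ 2 + ∑ l ∈ (s.erase i).erase k, ρ l / (z l - z i) ^ 2 := by
      rw [← Finset.add_sum_erase (s.erase i) _ hki]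
    have e1 := NF3_sum ((s.erase i).erase k) ρ (fun l => z l - z i) Y
      (fun l hl => hP0 l (hmem l hl).1 (hmem l hl).2.1)
      (fun l hl => hne l (hmem l hl).1 (hmem l hl).2.2)
    have e5 : (z k - z i) / (σ i : ℂ) + (σ k : ℂ) / (σ i : ℂ) * y = Y / (σ i : ℂ) := by
      rw [hY]; field_simp
    have hkine : z k - z i ≠ 0 := hP0 k hk (Ne.symm hik)
    have e2 : (σ i : ℂ) ^ 2 * ∑ j ∈ s, ρ j / (z k + (σ k : ℂ) * y - z j) -
        (σ i : ℂ) ^ 2 / (σ k : ℂ) * ρ k / y -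
        (-((σ i : ℂ) ^ 2 * ∑ l ∈ s.erase i, ρ l / (z l - z i)) +
          -((σ i : ℂ) ^ 3 * ∑ l ∈ s.erase i, ρ l / (z l - z i) ^ 2) *
            ((z k - z i) / (σ i : ℂ) + (σ k : ℂ) / (σ i : ℂ) * y)) =
        (σ i : ℂ) ^ 2 * (ρ i / Y + ρ k * (1 / (z k - z i) + Y / (z k - z i) ^ 2) +
          ∑ l ∈ (s.erase i).erase k,
            ρ l * (Y ^ 2 / ((z l - z i) ^ 2 * (Y - (z l - z i))))) := by
      rw [e5, e1, e0, e3, e4]
      have h3 : (σ i : ℂ) ^ 2 * (ρ k / ((σ k : ℂ) * y)) = (σ i : ℂ) ^ 2 / (σ k : ℂ) * ρ k / y := by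
        field_simp
      have h4 : ∀ A : ℂ, (σ i : ℂ) ^ 3 * A * (Y / (σ i : ℂ)) = (σ i : ℂ) ^ 2 * (A * Y) := by
        intro A; field_simp
      rw [neg_mul, h4, ← h3]
      ring
    rw [e2, norm_mul, norm_pow, hni]
    have b1 : ‖ρ i / Y‖ ≤ 4 / (σ i * d) := by
      rw [norm_div]
      calc ‖ρ i‖ / ‖Y‖ ≤ (2 / σ i) / (d / 2) := by
            apply div_le_div₀ (by positivity) (hρ' i hi) (by positivity) hYlo
        _ = 4 / (σ i * d) := by field_simp; ring
    have b2 : ‖ρ k * (1 / (z k - z i) + Y / (z k - z i) ^ 2)‖ ≤ 5 / (σ i * d) := by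
      rw [norm_mul]
      have h1 : ‖1 / (z k - z i) + Y / (z k - z i) ^ 2‖ ≤ 5 / 2 / d := by
        refine (norm_add_le _ _).trans ?_
        rw [norm_div, norm_div, norm_pow, norm_one, ← hd]
        calc 1 / d + ‖Y‖ / d ^ 2 ≤ 1 / d + (3 / 2 * d) / d ^ 2 := by gcongr
          _ = 5 / 2 / d := by field_simp; ring
      calc ‖ρ k‖ * ‖1 / (z k - z i) + Y / (z k - z i) ^ 2‖ ≤ (2 / σ i) * (5 / 2 / d) := by
            apply mul_le_mul _ h1 (norm_nonneg _) (by positivity)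
            refine (hρ' k hk).trans ?_
            exact div_le_div_of_nonneg_left (by norm_num) hσi hσik
        _ = 5 / (σ i * d) := by field_simp
    have b3 : ‖∑ l ∈ (s.erase i).erase k,
            ρ l * (Y ^ 2 / ((z l - z i) ^ 2 * (Y - (z l - z i))))‖ ≤
        9 * d ^ 2 * (180 / (σ i * d ^ 3)) := by
      refine (norm_sum_le _ _).trans ?_
      refine le_trans ?_ (mul_le_mul_of_nonneg_left hS2 (by positivity))
      rw [Finset.mul_sum]
      apply Finset.sum_le_sum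
      intro l hl
      obtain ⟨hls, hli, hlk⟩ := hmem l hl
      have hσl := hσ l hls
      have hPl : 0 < ‖z l - z i‖ := lt_of_lt_of_le hd0 (hPd l hls hli)
      have h1 := hkl l hls hlk
      have h2 := hkl0 l hls hlk
      rw [NF3_norm]
      calc ‖ρ l‖ * (‖Y‖ ^ 2 / (‖z l - z i‖ ^ 2 * ‖Y - (z l - z i)‖))
          ≤ (2 / σ l) * ((3 / 2 * d) ^ 2 / (‖z l - z i‖ ^ 2 * (‖z l - z k‖ / 2))) := by
            apply mul_le_mul (hρ' l hls) _ (by positivity) (by positivity)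
            apply div_le_div₀ (by positivity) _ (by positivity) _
            · exact pow_le_pow_left₀ (norm_nonneg _) hYhi 2
            · exact mul_le_mul_of_nonneg_left h1 (by positivity)
        _ = 9 * d ^ 2 * (1 / (σ l * (‖z l - z i‖ ^ 2 * ‖z l - z k‖))) := by
            field_simp; ring
    have b4 : ‖ρ i / Y + ρ k * (1 / (z k - z i) + Y / (z k - z i) ^ 2) +
          ∑ l ∈ (s.erase i).erase k,
            ρ l * (Y ^ 2 / ((z l - z i) ^ 2 * (Y - (z l - z i))))‖ ≤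
        4 / (σ i * d) + 5 / (σ i * d) + 9 * d ^ 2 * (180 / (σ i * d ^ 3)) := by
      refine (norm_add_le _ _).trans (add_le_add ((norm_add_le _ _).trans (add_le_add b1 b2)) b3)
    calc σ i ^ 2 * ‖ρ i / Y + ρ k * (1 / (z k - z i) + Y / (z k - z i) ^ 2) +
          ∑ l ∈ (s.erase i).erase k,
            ρ l * (Y ^ 2 / ((z l - z i) ^ 2 * (Y - (z l - z i))))‖
        ≤ σ i ^ 2 * (4 / (σ i * d) + 5 / (σ i * d) + 9 * d ^ 2 * (180 / (σ i * d ^ 3))) :=
          mul_le_mul_of_nonneg_left b4 (by positivity)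
      _ = 1629 * (σ i / d) := by field_simp; ring
      _ ≤ 2000 * (σ i / d) := by
          have : 0 ≤ σ i / d := by positivity
          linarith

end GR

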